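import Pool.Agent.H14.TOW.TargetsM

set_option autoImplicit false

open MvPolynomial
open Pool.Agent.H12.ZD (pmap)
open Pool.Agent.H18.HIT Pool.Agent.H18.HX Pool.Agent.H18.VP Pool.Agent.H18.VZ Pool.Agent.H14.TOW

namespace Pool.Agent.H69.TOW

section

variable {L : ℕ} {k : Type} [Field k]

/-- the components of a multiple of a form -/
theorem dvd_component {P : Po L k} {r : ℕ} (hP : P.IsHomogeneous r) {c : Po L k} (h : P ∣ c)
    (t : ℕ) : P ∣ homogeneousComponent t c := by
  obtain ⟨a, rfl⟩ := h
  rw [← sum_homogeneousComponent a, Finset.mul_sum, map_sum]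
  apply Finset.dvd_sum
  intro s _
  have h1 : (P * homogeneousComponent s a).IsHomogeneous (r + s) :=
    hP.mul (homogeneousComponent_isHomogeneous s a)
  rw [homogeneousComponent_of_mem h1]
  split_ifs
  · exact dvd_mul_right _ _
  · exact dvd_zero _

theorem dvd_of_components {P : Po L k} {c : Po L k}
    (h : ∀ t, P ∣ homogeneousComponent t c) : P ∣ c := by
  rw [← sum_homogeneousComponent c]
  exact Finset.dvd_sum fun t _ => h t

/-- the value of a form at a multiple of a point -/
theorem aeval_hom {K : Type} [Field K] [Algebra k K] {m : ℕ} {A : Po L k}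
    (hA : A.IsHomogeneous m) (v : Fin L → K) (s : K) :
    aeval (fun i => v i * s) A = aeval v A * s ^ m := by
  rw [aeval_def, aeval_def, eval₂_eq', eval₂_eq', Finset.sum_mul]
  refine Finset.sum_congr rfl fun d hd => ?_
  have h1 : ∑ i, d i = m := by
    have h2 := hA (mem_support_iff.1 hd)
    rw [Finsupp.weight_apply, Finsupp.sum_fintype _ _ (fun _ => by simp)] at h2
    simpa using h2
  rw [← h1, ← Finset.prod_pow_eq_pow_sum, mul_assoc, ← Finset.prod_mul_distrib]
  simp only [mul_pow]

end

section

variable {k E : Type} [Field k] [Field E] [Algebra k E]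

theorem algMap_rat (a : k) : algebraMap k (RatFunc E) a = RatFunc.C (algebraMap k E a) := by
  rw [IsScalarTower.algebraMap_apply k (Polynomial E) (RatFunc E)]
  rfl

/-- the inclusion of the constants, as an algebra homomorphism -/
noncomputable def cHom : E →ₐ[k] RatFunc E :=
  { (RatFunc.C : E →+* RatFunc E) with
    commutes' := fun a => (algMap_rat a).symm }

theorem cHom_apply (a : E) : cHom (k := k) a = RatFunc.C a := rfl

theorem aeval_cone {L m : ℕ} {A : Po L k} (hA : A.IsHomogeneous m) (y : Fin L → E) :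
    aeval (fun i => RatFunc.C (y i) * RatFunc.X) A = RatFunc.C (aeval y A) * RatFunc.X ^ m := by
  rw [aeval_hom hA (fun i => RatFunc.C (y i)) RatFunc.X]
  congr 1
  have h := MvPolynomial.comp_aeval_apply (cHom (k := k) (E := E)) (f := y) A
  exact h.symm

theorem pf_ALF (hP : T_PID) : T_ALF := by
  intro k E _ _ _ σ n r d P F y hM α hα
  have hadd : ∀ {m : ℕ} {A : Po (n + 1 + 1) k}, A.IsHomogeneous m →
      α A = RatFunc.C (aeval y A) * RatFunc.X ^ m := by
    intro m A hA
    rw [hα]
    exact aeval_cone hA y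
  have hCinj : Function.Injective (RatFunc.C : E →+* RatFunc E) := RingHom.injective _
  refine ⟨?_, ?_, ?_⟩
  · intro c
    have h1 : α c = algebraMap (Polynomial E) (RatFunc E)
        (aeval (fun i => Polynomial.C (y i) * Polynomial.X) c) := by
      have h2 := MvPolynomial.comp_aeval_apply
        (IsScalarTower.toAlgHom k (Polynomial E) (RatFunc E))
        (f := fun i => Polynomial.C (y i) * Polynomial.X) c
      rw [hα]
      rw [IsScalarTower.coe_toAlgHom'] at h2
      rw [h2]
      congr 2
      funext i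
      rw [map_mul, RatFunc.algebraMap_C, RatFunc.algebraMap_X]
    rw [h1, map_eq_zero_iff _ (RatFunc.algebraMap_injective E)]
    have h3 := ((hP k E (n + 1 + 1) y).2 c).1
    have h4 : (aeval (fun i => Polynomial.C (y i) * Polynomial.X) c = 0) ↔
        c ∈ pid (k := k) y := Iff.rfl
    rw [h4, h3]
    constructor
    · intro h
      apply dvd_of_components
      intro t
      exact (hM.ker t _ (homogeneousComponent_isHomogeneous t c)).1 (h t)
    · intro h t
      exact (hM.ker t _ (homogeneousComponent_isHomogeneous t c)).2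
        (dvd_component hM.hyp.hom h t)
  · have hm : ∀ a b : RatFunc E, (∃ A B, α B ≠ 0 ∧ a * α B = α A) →
        (∃ A B, α B ≠ 0 ∧ b * α B = α A) → ∃ A B, α B ≠ 0 ∧ (a * b) * α B = α A := by
      rintro a b ⟨A, B, hB, hAB⟩ ⟨A', B', hB', hAB'⟩
      refine ⟨A * A', B * B', ?_, ?_⟩
      · rw [map_mul]; exact mul_ne_zero hB hB'
      · rw [map_mul, map_mul, ← hAB, ← hAB']; ring
    have ha : ∀ a b : RatFunc E, (∃ A B, α B ≠ 0 ∧ a * α B = α A) →
        (∃ A B, α B ≠ 0 ∧ b * α B = α A) → ∃ A B, α B ≠ 0 ∧ (a + b) * α B = α A := by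
      rintro a b ⟨A, B, hB, hAB⟩ ⟨A', B', hB', hAB'⟩
      refine ⟨A * B' + A' * B, B * B', ?_, ?_⟩
      · rw [map_mul]; exact mul_ne_zero hB hB'
      · rw [map_add, map_mul, map_mul, map_mul, ← hAB, ← hAB']; ring
    have hX : ∃ A B, α B ≠ 0 ∧ (RatFunc.X : RatFunc E) * α B = α A := by
      refine ⟨X (Fin.succ 0), 1, ?_, ?_⟩
      · rw [map_one]; exact one_ne_zero
      · rw [hα, map_one, aeval_X, hM.y1, map_one, one_mul, mul_one]
    have hC : ∀ a : E, ∃ A B, α B ≠ 0 ∧ (RatFunc.C a : RatFunc E) * α B = α A := by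
      intro a
      obtain ⟨m, A, B, hA, hB, hB0, hAB⟩ := hM.gen a
      refine ⟨A, B, ?_, ?_⟩
      · rw [hadd hB]
        refine mul_ne_zero ?_ (pow_ne_zero _ RatFunc.X_ne_zero)
        rw [Ne, map_eq_zero]
        exact hB0
      · rw [hadd hB, hadd hA, ← hAB, map_mul, mul_assoc]
    have hpoly : ∀ p : Polynomial E,
        ∃ A B, α B ≠ 0 ∧ (algebraMap (Polynomial E) (RatFunc E) p) * α B = α A := by
      intro p
      induction p using Polynomial.induction_on' with
      | add p q hp hq => rw [map_add]; exact ha _ _ hp hq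
      | monomial j a =>
        rw [← Polynomial.C_mul_X_pow_eq_monomial, map_mul, RatFunc.algebraMap_C]
        refine hm _ _ (hC a) ?_
        rw [map_pow, RatFunc.algebraMap_X]
        induction j with
        | zero => exact ⟨1, 1, by rw [map_one]; exact one_ne_zero, by rw [pow_zero, one_mul]⟩
        | succ j ih => rw [pow_succ]; exact hm _ _ ih hX
    intro a
    induction a using RatFunc.induction_on with
    | _ p q hq =>
      obtain ⟨A, B, hB, hAB⟩ := hpoly p
      obtain ⟨A', B', hB', hAB'⟩ := hpoly q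
      have hq0 : algebraMap (Polynomial E) (RatFunc E) q ≠ 0 := RatFunc.algebraMap_ne_zero hq
      have hA' : α A' ≠ 0 := by
        rw [← hAB']
        exact mul_ne_zero hq0 hB'
      refine ⟨A * B', B * A', ?_, ?_⟩
      · rw [map_mul]; exact mul_ne_zero hB hA'
      · rw [map_mul, map_mul, ← hAB, ← hAB']
        field_simp
  · intro Φ hΦC hΦX c
    have h1 : Φ.comp α = α.comp (aeval F) := by
      apply MvPolynomial.algHom_ext
      intro i
      rw [AlgHom.comp_apply, AlgHom.comp_apply, aeval_X, hadd (hM.hom i), hM.map i, hα, aeval_X,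
        map_mul, hΦC, hΦX, map_mul]
      ring
    exact DFunLike.congr_fun h1 c

end

end Pool.Agent.H69.TOW
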