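import Pool.Agent.H14.TOW.TargetsM
import Pool.Agent.H49.VZ.Base

set_option autoImplicit false

open MvPolynomial
open Pool.Agent.H12.ZD (pmap)
open Pool.Agent.H18.HIT Pool.Agent.H18.HX Pool.Agent.H18.VP Pool.Agent.H18.VZ Pool.Agent.H14.TOW

namespace Pool.Agent.H69.TOW

section

variable {k E : Type} [Field k] [Field E] [Algebra k E]

/-- the value of a polynomial through `finSuccEquiv` -/
theorem aeval_fse {N : ℕ} (y : Fin (N + 1) → E) (P : Po (N + 1) k) :
    aeval y P = (finSuccEquiv k N P).eval₂
      (aeval (fun i : Fin N => y i.succ) : Po N k →ₐ[k] E).toRingHom (y 0) := by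
  induction P using MvPolynomial.induction_on with
  | C a =>
    rw [finSuccEquiv_apply]
    simp
  | add p q hp hq => rw [map_add, map_add, Polynomial.eval₂_add, hp, hq]
  | mul_X p i hp =>
    rw [map_mul, map_mul, Polynomial.eval₂_mul, hp, aeval_X]
    congr 1
    refine Fin.cases ?_ (fun j => ?_) i
    · rw [finSuccEquiv_X_zero, Polynomial.eval₂_X]
    · rw [finSuccEquiv_X_succ, Polynomial.eval₂_C]
      simp

theorem alg_indep (σ : E →ₐ[k] E) {n r d : ℕ} {P : Po (n + 1 + 1) k} {F : Tup (n + 1 + 1) k}
    {y : Fin (n + 1 + 1) → E} (hM : Mdl σ P r d F y) :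
    AlgebraicIndependent k (fun i : Fin n => y i.succ.succ) := by
  rw [algebraicIndependent_iff]
  intro q hq
  let D := q.totalDegree
  let Q' : Po (n + 1) k := ∑ t ∈ Finset.range (D + 1),
    X 0 ^ (D - t) * rename Fin.succ (homogeneousComponent t q)
  have hQ'hom : Q'.IsHomogeneous D := by
    refine IsHomogeneous.sum _ _ _ fun t ht => ?_
    have h1 : (D - t) + t = D := Nat.sub_add_cancel (by
      have := Finset.mem_range.1 ht
      omega)
    have h2 : ((X 0 : Po (n + 1) k) ^ (D - t)).IsHomogeneous (D - t) := by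
      have := (isHomogeneous_X k (0 : Fin (n + 1))).pow (D - t)
      rwa [one_mul] at this
    have h3 : (rename Fin.succ (homogeneousComponent t q) : Po (n + 1) k).IsHomogeneous t :=
      (homogeneousComponent_isHomogeneous t q).rename_isHomogeneous
    have h4 := h2.mul h3
    rwa [h1] at h4
  have hup : (up Q').IsHomogeneous D := by
    unfold up
    exact hQ'hom.rename_isHomogeneous
  have hval : aeval y (up Q') = 0 := by
    unfold up
    rw [aeval_rename, map_sum]
    have h1 : ∀ t ∈ Finset.range (D + 1),
        aeval (y ∘ Fin.succ) (X 0 ^ (D - t) * rename Fin.succ (homogeneousComponent t q)) =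
          aeval (fun i : Fin n => y i.succ.succ) (homogeneousComponent t q) := by
      intro t _
      rw [map_mul, map_pow, aeval_X, aeval_rename, Function.comp_apply, hM.y1, one_pow, one_mul]
      rfl
    rw [Finset.sum_congr rfl h1, ← map_sum, sum_homogeneousComponent, hq]
  have hdvd := (hM.ker D _ hup).1 hval
  have hQ0 : Q' = 0 := by
    by_contra hne
    exact Pool.Agent.H49.VZ.not_dvd_up hM.hyp hne hdvd
  have h5 : aeval (Fin.cons 1 X : Fin (n + 1) → Po n k) Q' = q := by
    show aeval _ (∑ t ∈ Finset.range (D + 1),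
      X 0 ^ (D - t) * rename Fin.succ (homogeneousComponent t q)) = q
    rw [map_sum]
    have h1 : ∀ t ∈ Finset.range (D + 1),
        aeval (Fin.cons 1 X : Fin (n + 1) → Po n k)
          (X 0 ^ (D - t) * rename Fin.succ (homogeneousComponent t q)) =
          homogeneousComponent t q := by
      intro t _
      rw [map_mul, map_pow, aeval_X, aeval_rename, Fin.cons_zero, one_pow, one_mul]
      have h2 : ((Fin.cons 1 X : Fin (n + 1) → Po n k) ∘ Fin.succ) = X := by
        funext i
        rw [Function.comp_apply, Fin.cons_succ]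
      rw [h2, aeval_X_left_apply]
    rw [Finset.sum_congr rfl h1, sum_homogeneousComponent]
  rw [← h5, hQ0, map_zero]

theorem pf_MTD : T_MTD := by
  intro k E _ _ _ σ n r d P F y hM
  have hind := alg_indep σ hM
  have hbas : IsTranscendenceBasis k (fun i : Fin n => y i.succ.succ) := by
    rw [hind.isTranscendenceBasis_iff_isAlgebraic]
    obtain ⟨S, hS⟩ : ∃ S, S = Algebra.adjoin k (Set.range (fun i : Fin n => y i.succ.succ)) :=
      ⟨_, rfl⟩
    rw [← hS]
    have hmem : ∀ i : Fin (n + 1), y i.succ ∈ S := by
      intro i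
      refine Fin.cases ?_ (fun j => ?_) i
      · rw [hM.y1]; exact one_mem S
      · rw [hS]
        exact Algebra.subset_adjoin ⟨j, rfl⟩
    have halg : ∀ s : S, IsAlgebraic S (s : E) := fun s => isAlgebraic_algebraMap (A := E) s
    have h0 : IsAlgebraic S (y 0) := by
      let φ : Po (n + 1) k →ₐ[k] S := aeval (fun i => (⟨y i.succ, hmem i⟩ : S))
      have hφ : (algebraMap S E).comp φ.toRingHom =
          (aeval (fun i : Fin (n + 1) => y i.succ) : Po (n + 1) k →ₐ[k] E).toRingHom := by
        apply RingHom.ext
        intro c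
        have h2 := MvPolynomial.comp_aeval_apply S.val
          (f := fun i : Fin (n + 1) => (⟨y i.succ, hmem i⟩ : S)) c
        exact h2
      have hmon : ((finSuccEquiv k (n + 1) P).map φ.toRingHom).Monic := by
        have : (finSuccEquiv k (n + 1) P).Monic := hM.hyp.mon
        exact this.map _
      refine ⟨(finSuccEquiv k (n + 1) P).map φ.toRingHom, hmon.ne_zero, ?_⟩
      rw [Polynomial.aeval_def, Polynomial.eval₂_map, hφ, ← aeval_fse]
      exact (hM.ker r P hM.hyp.hom).2 dvd_rfl
    have hy : ∀ i, IsAlgebraic S (y i) := by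
      intro i
      refine Fin.cases h0 (fun j => ?_) i
      exact halg ⟨y j.succ, hmem j⟩
    have hpol : ∀ A : Po (n + 1 + 1) k, IsAlgebraic S (aeval y A) := by
      intro A
      induction A using MvPolynomial.induction_on with
      | C a =>
        rw [aeval_C]
        exact halg ⟨algebraMap k E a, S.algebraMap_mem a⟩
      | add p q hp hq => rw [map_add]; exact hp.add hq
      | mul_X p i hp => rw [map_mul, aeval_X]; exact hp.mul (hy i)
    refine ⟨fun a => ?_⟩
    obtain ⟨m, A, B, hA, hB, hB0, hAB⟩ := hM.gen a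
    have h1 : a = aeval y A * (aeval y B)⁻¹ := by
      rw [← hAB, mul_assoc, mul_inv_cancel₀ hB0, mul_one]
    rw [h1]
    exact (hpol A).mul (hpol B).inv
  have h := hbas.cardinalMk_eq_trdeg
  rw [← h, Cardinal.mk_fin]

end

end Pool.Agent.H69.TOW
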